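import Pool.Agent.helper53.ORT.Spec

set_option autoImplicit false

namespace Pool.Agent.ORT

open Module Pool.Agent.GS

/-- Counting modulo 4 with two commuting involutions. -/
theorem SGA_count {X : Type} [DecidableEq X] (S : Finset X) (n ρ : X → X)
    (hn : ∀ v, n (n v) = v) (hρ : ∀ v, ρ (ρ v) = v) (hc : ∀ v, n (ρ v) = ρ (n v))
    (hSn : ∀ v ∈ S, n v ∈ S) (hSρ : ∀ v ∈ S, ρ v ∈ S) (h1 : ∀ v ∈ S, n v ≠ v)
    (h2 : ∀ v ∈ S, ρ v ≠ v) : 4 ∣ (S.filter (fun v => ¬ (n (ρ v) = v))).card := by
  classical
  have key : ∀ T : Finset X, T = S.filter (fun v => ¬ (n (ρ v) = v)) → 4 ∣ T.card := by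
    intro T hT
    have hmem : ∀ v, v ∈ T ↔ v ∈ S ∧ ¬ (n (ρ v) = v) := by
      intro v
      rw [hT, Finset.mem_filter]
    have hTn : ∀ v ∈ T, n v ∈ T := by
      intro v hv
      rw [hmem] at hv ⊢
      refine ⟨hSn v hv.1, fun h => hv.2 ?_⟩
      have := congrArg n h
      rw [hn, hn, ← hc] at this
      exact this
    have hTρ : ∀ v ∈ T, ρ v ∈ T := by
      intro v hv
      rw [hmem] at hv ⊢
      refine ⟨hSρ v hv.1, fun h => hv.2 ?_⟩
      have := congrArg ρ h
      rw [hρ] at this
      rw [hc]
      exact this
    rw [Finset.card_eq_sum_card_image (fun v => ({v, n v, ρ v, n (ρ v)} : Finset X)) T]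
    refine Finset.dvd_sum fun b hb => ?_
    rw [Finset.mem_image] at hb
    obtain ⟨v, hv, rfl⟩ := hb
    have hfib : T.filter (fun w => ({w, n w, ρ w, n (ρ w)} : Finset X) =
        ({v, n v, ρ v, n (ρ v)} : Finset X)) = ({v, n v, ρ v, n (ρ v)} : Finset X) := by
      ext w
      rw [Finset.mem_filter]
      constructor
      · rintro ⟨-, h⟩
        rw [← h]
        exact Finset.mem_insert_self _ _
      · intro hw
        simp only [Finset.mem_insert, Finset.mem_singleton] at hw
        rcases hw with rfl | rfl | rfl | rfl
        · exact ⟨hv, rfl⟩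
        · refine ⟨hTn v hv, ?_⟩
          ext x
          simp only [Finset.mem_insert, Finset.mem_singleton, hn, ← hc]
          tauto
        · refine ⟨hTρ v hv, ?_⟩
          ext x
          simp only [Finset.mem_insert, Finset.mem_singleton, hρ]
          tauto
        · refine ⟨hTn _ (hTρ v hv), ?_⟩
          ext x
          simp only [Finset.mem_insert, Finset.mem_singleton, hρ, hn, hc]
          tauto
    rw [hfib]
    have hv' := (hmem v).1 hv
    have a1 : v ≠ n v := (h1 v hv'.1).symm
    have a2 : v ≠ ρ v := (h2 v hv'.1).symm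
    have a3 : v ≠ n (ρ v) := fun h => hv'.2 h.symm
    have a4 : n v ≠ ρ v := by
      intro h
      apply hv'.2
      rw [← h, hn]
    have a5 : n v ≠ n (ρ v) := by
      intro h
      have := congrArg n h
      rw [hn, hn] at this
      exact a2 this
    have a6 : ρ v ≠ n (ρ v) := (h1 _ (hSρ v hv'.1)).symm
    rw [Finset.card_insert_of_notMem, Finset.card_insert_of_notMem, Finset.card_insert_of_notMem,
      Finset.card_singleton]
    · rw [Finset.mem_singleton]
      exact a6
    · simp only [Finset.mem_insert, Finset.mem_singleton, not_or]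
      exact ⟨a4, a5⟩
    · simp only [Finset.mem_insert, Finset.mem_singleton, not_or]
      exact ⟨a1, a2, a3⟩
  exact key _ rfl

theorem SGA : SGA_stmt := by
  intro F V _ _ _ _ _ B hchar hB c a hc ha _ _
  have h2 : (2 : F) ≠ 0 := Ring.two_ne_zero hchar
  classical
  -- the two involutions
  set σ := actX B c ⟨rf B a, rf_mem hB a⟩ with hσ
  have hσv : ∀ v : {v : V // B v v = c}, ((σ v : {v : V // B v v = c}) : V) = rf B a v :=
    fun v => rfl
  have hσ2 : σ ^ 2 = 1 := by
    rw [pow_two, hσ, ← map_mul]
    have : (⟨rf B a, rf_mem hB a⟩ * ⟨rf B a, rf_mem hB a⟩ : SpG B) = 1 :=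
      Subtype.ext (rf_sq a)
    rw [this, map_one]
  have hσσ : ∀ v, σ (σ v) = v := by
    intro v
    have := congrArg (fun g : Equiv.Perm _ => g v) hσ2
    rw [pow_two] at this
    exact this
  let n : {v : V // B v v = c} → {v : V // B v v = c} := fun v =>
    ⟨-(v : V), by simp only [map_neg, LinearMap.neg_apply, neg_neg]; exact v.2⟩
  have hnv : ∀ v, ((n v : {v : V // B v v = c}) : V) = -(v : V) := fun v => rfl
  have hnn : ∀ v, n (n v) = v := fun v => Subtype.ext (by rw [hnv, hnv, neg_neg])
  have hnσ : ∀ v, n (σ v) = σ (n v) := by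
    intro v
    apply Subtype.ext
    rw [hnv, hσv, hσv, hnv, rf_apply ha, rf_apply ha, map_neg, LinearMap.neg_apply]
    match_scalars <;> ring
  have hne0 : ∀ v : {v : V // B v v = c}, (v : V) ≠ 0 := by
    intro v h
    apply hc
    rw [← v.2, h, map_zero]
  have hn1 : ∀ v, n v ≠ v := by
    intro v h
    have h3 := congrArg (Subtype.val) h
    rw [hnv] at h3
    apply hne0 v
    have h4 : (2 : F) • (v : V) = 0 := by
      rw [two_smul]
      nth_rewrite 1 [← h3]
      exact neg_add_cancel _
    exact (smul_eq_zero.1 h4).resolve_left h2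
  have hsupp : ∀ v, v ∈ σ.support ↔ σ v ≠ v := fun v => Equiv.Perm.mem_support
  have hS := SGA_count σ.support n σ hnn hσσ hnσ
    (by
      intro v hv
      rw [hsupp] at hv ⊢
      intro h
      apply hv
      rw [← hnσ] at h
      have := congrArg n h
      rw [hnn, hnn] at this
      exact this)
    (by
      intro v hv
      rw [hsupp] at hv ⊢
      rw [hσσ]
      exact fun h => hv h.symm)
    (fun v _ => hn1 v) (fun v hv => (hsupp v).1 hv)
  have hsplit : σ.support.card = (σ.support.filter (fun v => n (σ v) = v)).card +
      (σ.support.filter (fun v => ¬ (n (σ v) = v))).card :=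
    (Finset.card_filter_add_card_filter_not _).symm
  have hfix : ∀ v : {v : V // B v v = c}, n (σ v) = v ↔
      (v : V) = (B v a / B a a) • a := by
    intro v
    constructor
    · intro h
      have h3 := congrArg (Subtype.val) h
      rw [hnv, hσv, rf_apply ha] at h3
      have h4 : (2 : F) • (v : V) = (2 : F) • ((B v a / B a a) • a) := by
        rw [smul_smul, ← mul_div_assoc, two_smul]
        nth_rewrite 1 [← h3]
        abel
      exact smul_right_injective V h2 h4
    · intro h
      apply Subtype.ext
      rw [hnv, hσv, rf_apply ha]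
      have h4 : (2 * B (v : V) a / B a a) • a = (2 : F) • (v : V) := by
        rw [mul_div_assoc, ← smul_smul, ← h]
      rw [h4, two_smul]
      abel
  rw [Equiv.Perm.sign_of_pow_two_eq_one hσ2, Equiv.Perm.card_fixedPoints,
    Nat.sub_sub_self (Equiv.Perm.sum_cycleType_le σ), Equiv.Perm.sum_cycleType]
  obtain ⟨k, hk⟩ := hS
  constructor
  · rintro ⟨s, hs⟩
    have hs0 : s ≠ 0 := by
      rintro rfl
      rw [mul_zero] at hs
      exact (mul_ne_zero hc ha) hs
    have hv0 : B ((s / B a a) • a) ((s / B a a) • a) = c := by
      simp only [map_smul, LinearMap.smul_apply, smul_eq_mul]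
      field_simp
      rw [pow_two, ← hs]
      ring
    let v0 : {v : V // B v v = c} := ⟨(s / B a a) • a, hv0⟩
    have hv0v : (v0 : V) = (s / B a a) • a := rfl
    have hB0 : B (v0 : V) a = s := by
      rw [hv0v, map_smul, LinearMap.smul_apply, smul_eq_mul]
      field_simp
    have hcard : (σ.support.filter (fun v => n (σ v) = v)).card = 2 := by
      have : σ.support.filter (fun v => n (σ v) = v) = {v0, n v0} := by
        ext v
        rw [Finset.mem_filter, hfix, Finset.mem_insert, Finset.mem_singleton, hsupp]
        constructor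
        · rintro ⟨-, h⟩
          have h5 : B (v : V) (v : V) = c := v.2
          have h6 : B (v : V) a * B (v : V) a = s * s := by
            have h7 : B (v : V) (v : V) * B a a = B (v : V) a * B (v : V) a := by
              nth_rewrite 2 [h]
              rw [map_smul, smul_eq_mul]
              field_simp
            rw [← h7, h5, hs]
          rcases mul_self_eq_mul_self_iff.1 h6 with h8 | h8
          · left
            apply Subtype.ext
            rw [h, h8]
          · right
            apply Subtype.ext
            rw [h, h8, hnv, hv0v, neg_div, neg_smul]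
        · have hv0f : (v0 : V) = (B v0 a / B a a) • a := by
            rw [hB0]
          have hns : n (σ v0) = v0 := (hfix v0).2 hv0f
          have hσ0 : σ v0 ≠ v0 := by
            intro h
            rw [h] at hns
            exact hn1 _ hns
          rintro (rfl | rfl)
          · exact ⟨hσ0, hv0f⟩
          · refine ⟨?_, ?_⟩
            · intro h
              apply hσ0
              rw [← hnσ] at h
              have := congrArg n h
              rw [hnn, hnn] at this
              exact this
            · rw [hnv, map_neg, LinearMap.neg_apply, hB0, hv0v, neg_div, neg_smul]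
      rw [this, Finset.card_pair]
      exact (hn1 v0).symm
    rw [hsplit, hcard, hk]
    have : (2 + 4 * k) / 2 = 2 * k + 1 := by omega
    rw [this, pow_succ, pow_mul]
    simp
  · intro hns
    have hcard : (σ.support.filter (fun v => n (σ v) = v)).card = 0 := by
      rw [Finset.card_eq_zero, Finset.filter_eq_empty_iff]
      intro v _ h
      rw [hfix] at h
      apply hns
      refine ⟨B (v : V) a, ?_⟩
      have h5 : B (v : V) (v : V) = c := v.2
      have h7 : B (v : V) (v : V) * B a a = B (v : V) a * B (v : V) a := by
        nth_rewrite 2 [h]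
        rw [map_smul, smul_eq_mul]
        field_simp
      rw [← h7, h5]
    rw [hsplit, hcard, hk]
    have : (0 + 4 * k) / 2 = 2 * k := by omega
    rw [this, pow_mul]
    simp

end Pool.Agent.ORT
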